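import Pool.Agent.H8.Gs4

namespace Pool.Agent.Results.MP_668c10_co.DesQ1

open Pool.Agent.H8.Gs

theorem result : ∀ n : ℕ, 1 ≤ n → desPoly ![1, 2, 4, 3] n = desPoly ![3, 4, 1, 2] n :=
  fun n hn => main n hn

end Pool.Agent.Results.MP_668c10_co.DesQ1
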